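import Pool.Agent.H97R2.LPB.Props
import Pool.Agent.H102R2.Z5.Brick

/-! The potential of the nodes (task `POT` = `S_pot`). -/

open Polynomial Filter Topology MeasureTheory Pool.Agent.H337R2 Pool.Agent.LP

namespace Pool.Agent.LPB

namespace Pot836

lemma geTwo {x y : ℝ} (h : x ≤ y) : -2 ≤ Psi y - Psi x := Pool.Agent.H102R2.Z5.Psi_sub_ge_neg_two h

lemma negP (u : ℝ) : Psi (-u) = -Psi u := Pool.Agent.H102R2.Z5.Psi_neg u

lemma subGe {x y : ℝ} (hx : 0 < x) (hy : 0 < y) : (y - x) * Real.log x ≤ Psi y - Psi x :=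
  Pool.Agent.H102R2.Z5.Psi_sub_ge hx hy

lemma subLeLog {x y W : ℝ} (hxy : x ≤ y) (hx : -W ≤ x) (hy : y ≤ W) :
    Psi y - Psi x ≤ (y - x) * Real.log W := Pool.Agent.H102R2.Z5.Psi_sub_le_log hxy hx hy

/-- one brick, with some terms replaced by `-4` -/
lemma brick (D c : ℝ) (hc : 1 / 2 ≤ c) (p : ℕ → Prop) [DecidablePred p] (n : ℕ) :
    ((n = 0 ∨ D + c * ((n : ℝ) - 1) < 0) →
      c * ∑ j ∈ Finset.range n, (if p j then Real.log (D + c * j) else -4) ≤
        Psi (D + c * ((n : ℝ) - 1)) - Psi (D - c)) ∧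
    c * ∑ j ∈ Finset.range n, (if p j then Real.log (D + c * j) else -4) ≤
        Psi (D + c * n) - Psi (D - c) + 2 := by
  have hc0 : 0 < c := by linarith
  induction n with
  | zero =>
    refine ⟨fun _ => ?_, ?_⟩
    · have : D + c * (((0:ℕ) : ℝ) - 1) = D - c := by push_cast; ring
      rw [this]; simp
    · have h1 := geTwo (x := D - c) (y := D + c * ((0:ℕ) : ℝ)) (by push_cast; linarith)
      simp only [Finset.range_zero, Finset.sum_empty, mul_zero]
      linarith
  | succ n ih =>
    obtain ⟨ihA, ihB⟩ := ih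
    have hA : D + c * (((n + 1 : ℕ) : ℝ) - 1) < 0 →
      c * ∑ j ∈ Finset.range (n + 1), (if p j then Real.log (D + c * j) else -4) ≤
        Psi (D + c * (((n + 1 : ℕ) : ℝ) - 1)) - Psi (D - c) := by
      intro hneg
      have e1 : D + c * (((n + 1 : ℕ) : ℝ) - 1) = D + c * n := by push_cast; ring
      rw [e1] at hneg ⊢
      have hA' := ihA (Or.inr (by nlinarith))
      rw [Finset.sum_range_succ, mul_add]
      by_cases hp : p n
      · rw [if_pos hp]
        have h1 := subGe (x := -(D + c * n)) (y := -(D + c * ((n:ℝ) - 1))) (by linarith) (by nlinarith)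
        rw [negP, negP, Real.log_neg_eq_log] at h1
        have e2 : -(D + c * ((n:ℝ) - 1)) - -(D + c * n) = c := by ring
        rw [e2] at h1
        linarith
      · rw [if_neg hp]
        have h1 := geTwo (x := D + c * ((n:ℝ) - 1)) (y := D + c * n) (by nlinarith)
        linarith
    refine ⟨fun h => ?_, ?_⟩
    · rcases h with h | h
      · omega
      · exact hA h
    · have e1 : D + c * (((n + 1 : ℕ) : ℝ) - 1) = D + c * n := by push_cast; ring
      rcases lt_trichotomy (D + c * n) 0 with h | h | h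
      · have h2 := hA (by rw [e1]; exact h)
        rw [e1] at h2
        have h1 := geTwo (x := D + c * n) (y := D + c * ((n + 1 : ℕ) : ℝ)) (by push_cast; linarith)
        linarith
      · have h0 : c * ∑ j ∈ Finset.range n, (if p j then Real.log (D + c * j) else -4) ≤
            Psi (D + c * ((n : ℝ) - 1)) - Psi (D - c) := ihA (Or.inr (by linarith))
        rw [Finset.sum_range_succ, mul_add]
        have h1 := geTwo (x := D + c * ((n:ℝ) - 1)) (y := D + c * ((n + 1 : ℕ) : ℝ)) (by push_cast; nlinarith)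
        have h3 : c * (if p n then Real.log (D + c * n) else -4) ≤ 0 := by
          split_ifs
          · rw [h]; simp
          · nlinarith
        linarith
      · rw [Finset.sum_range_succ, mul_add]
        have e3 : D + c * ((n + 1 : ℕ) : ℝ) = D + c * n + c := by push_cast; ring
        rw [e3]
        by_cases hp : p n
        · rw [if_pos hp]
          have h1 := subGe (x := D + c * n) (y := D + c * n + c) h (by linarith)
          have e2 : D + c * n + c - (D + c * n) = c := by ring
          rw [e2] at h1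
          linarith
        · rw [if_neg hp]
          have h1 := geTwo (x := D + c * n) (y := D + c * n + c) (by linarith)
          linarith

lemma Psi_scale {n : ℝ} (hn : 0 < n) (u : ℝ) : Psi (n * u) = n * Psi u + n * u * Real.log n := by
  unfold Psi
  rcases eq_or_ne u 0 with h | h
  · subst h; simp
  · rw [Real.log_mul hn.ne' h]; ring

/-- a scaled brick -/
lemma brick2 {n : ℕ} (hn : 2 ≤ n) (b c y : ℝ) (hc : 1 / 2 ≤ c) (hc2 : c ≤ 33 / 16) (hb : 0 ≤ b)
    (hbc : b + c ≤ 3) (p : ℕ → Prop) [DecidablePred p] :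
    ∑ j ∈ Finset.range n, (if p j then Real.log |y - (b * n + c * ((j : ℝ) + 1 / 2))| else -4) ≤
      n / c * (Psi (b + c - y / n) - Psi (b - y / n)) + n * Real.log n + Real.log (4 * (n + |y|)) + 4 := by
  have hn2 : (2:ℝ) ≤ n := by exact_mod_cast hn
  have hn0 : (0:ℝ) < n := by linarith
  have hc0 : 0 < c := by linarith
  have h := (brick (b * n + c / 2 - y) c hc p n).2
  have e0 : ∀ j : ℕ, Real.log |y - (b * n + c * ((j : ℝ) + 1 / 2))| = Real.log (b * n + c / 2 - y + c * j) := by
    intro j
    rw [Real.log_abs, ← Real.log_neg_eq_log]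
    congr 1; ring
  simp only [e0]
  set S := ∑ j ∈ Finset.range n, (if p j then Real.log (b * n + c / 2 - y + c * j) else -4) with hS
  have hy1 := le_abs_self y
  have hy2 := neg_abs_le y
  have hW1 : 1 ≤ 4 * ((n:ℝ) + |y|) := by have := abs_nonneg y; linarith
  have hbn : 0 ≤ b * n := by positivity
  have hbn3 : (b + c) * n ≤ 3 * n := mul_le_mul_of_nonneg_right hbc hn0.le
  have hcn : 0 < c * n := by positivity
  have h1 := subLeLog (x := b * n + c * n - y) (y := b * n + c / 2 - y + c * n) (W := 4 * (n + |y|))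
    (by linarith) (by nlinarith) (by nlinarith)
  have h2 := subLeLog (x := b * n + c / 2 - y - c) (y := b * n - y) (W := 4 * (n + |y|))
    (by linarith) (by nlinarith) (by nlinarith)
  have e3 : b * n + c * n - y = n * (b + c - y / n) := by field_simp
  have e4 : b * n - y = n * (b - y / n) := by field_simp
  have e5 : b * n + c / 2 - y + c * n - (b * n + c * n - y) = c / 2 := by ring
  have e6 : b * n - y - (b * n + c / 2 - y - c) = c / 2 := by ring
  rw [e5] at h1
  rw [e6] at h2
  have h3 := Psi_scale hn0 (b + c - y / n)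
  have h4 := Psi_scale hn0 (b - y / n)
  rw [← e3] at h3
  rw [← e4] at h4
  have h5 : c * S ≤ n * (Psi (b + c - y / n) - Psi (b - y / n)) + c * n * Real.log n +
      c * Real.log (4 * (n + |y|)) + 2 := by
    have h6 : n * (b + c - y / n) * Real.log n - n * (b - y / n) * Real.log n = c * n * Real.log n := by ring
    linarith
  have h7 : c * S ≤ c * (n / c * (Psi (b + c - y / n) - Psi (b - y / n)) + n * Real.log n +
      Real.log (4 * (n + |y|)) + 4) := by
    have h8 : c * (n / c * (Psi (b + c - y / n) - Psi (b - y / n)) + n * Real.log n +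
      Real.log (4 * (n + |y|)) + 4) = n * (Psi (b + c - y / n) - Psi (b - y / n)) + c * n * Real.log n +
      c * Real.log (4 * (n + |y|)) + 4 * c := by field_simp
    rw [h8]
    linarith
  exact le_of_mul_le_mul_left h7 hc0

lemma xn0 {n j : ℕ} (h : j < n) (y : ℝ) :
    |y - xn n j| = |y - (0 * n + 15 / 16 * ((j : ℝ) + 1 / 2))| := by
  unfold xn; rw [if_pos h]; congr 1; ring

lemma xn1 {n j : ℕ} (h : j < n) (y : ℝ) :
    |y - xn n (n + j)| = |-y - (0 * n + 15 / 16 * ((j : ℝ) + 1 / 2))| := by
  unfold xn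
  rw [if_neg (by omega), if_pos (by omega), Nat.add_sub_cancel_left, ← abs_neg]; congr 1; ring

lemma xn2 {n j : ℕ} (h : j < n) (y : ℝ) :
    |y - xn n (n + n + j)| = |y - (15 / 16 * n + 33 / 16 * ((j : ℝ) + 1 / 2))| := by
  unfold xn
  rw [if_neg (by omega), if_neg (by omega), if_pos (by omega)]
  have : n + n + j - 2 * n = j := by omega
  rw [this]

lemma xn3 {n j : ℕ} (h : j < n) (y : ℝ) :
    |y - xn n (n + n + n + j)| = |-y - (15 / 16 * n + 33 / 16 * ((j : ℝ) + 1 / 2))| := by
  unfold xn
  rw [if_neg (by omega), if_neg (by omega), if_neg (by omega), if_pos (by omega), ← abs_neg]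
  have : n + n + n + j - 3 * n = j := by omega
  rw [this]; congr 1; ring

lemma xn4 (n : ℕ) : xn n (4 * n) = 0 := by
  unfold xn
  rw [if_neg (by omega), if_neg (by omega), if_neg (by omega), if_neg (by omega)]

/-- the sum over the `4 n` nodes -/
lemma total {n : ℕ} (hn : 2 ≤ n) (y : ℝ) (p : ℕ → Prop) [DecidablePred p] :
    ∑ j ∈ Finset.range (4 * n), (if p j then Real.log |y - xn n j| else -4) ≤
      n * Ux (y / n) + 4 * n * Real.log n + 4 * Real.log (4 * (n + |y|)) + 16 := by
  have e : 4 * n = n + n + n + n := by ring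
  rw [e, Finset.sum_range_add, Finset.sum_range_add, Finset.sum_range_add]
  have s0 : ∑ x ∈ Finset.range n, (if p x then Real.log |y - xn n x| else -4) =
      ∑ x ∈ Finset.range n, (if p x then Real.log |y - (0 * n + 15 / 16 * ((x : ℝ) + 1 / 2))| else -4) :=
    Finset.sum_congr rfl fun x hx => by rw [xn0 (Finset.mem_range.1 hx)]
  have s1 : ∑ x ∈ Finset.range n, (if p (n + x) then Real.log |y - xn n (n + x)| else -4) =
      ∑ x ∈ Finset.range n, (if p (n + x) then Real.log |-y - (0 * n + 15 / 16 * ((x : ℝ) + 1 / 2))| else -4) :=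
    Finset.sum_congr rfl fun x hx => by rw [xn1 (Finset.mem_range.1 hx)]
  have s2 : ∑ x ∈ Finset.range n, (if p (n + n + x) then Real.log |y - xn n (n + n + x)| else -4) =
      ∑ x ∈ Finset.range n,
        (if p (n + n + x) then Real.log |y - (15 / 16 * n + 33 / 16 * ((x : ℝ) + 1 / 2))| else -4) :=
    Finset.sum_congr rfl fun x hx => by rw [xn2 (Finset.mem_range.1 hx)]
  have s3 : ∑ x ∈ Finset.range n, (if p (n + n + n + x) then Real.log |y - xn n (n + n + n + x)| else -4) =
      ∑ x ∈ Finset.range n,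
        (if p (n + n + n + x) then Real.log |-y - (15 / 16 * n + 33 / 16 * ((x : ℝ) + 1 / 2))| else -4) :=
    Finset.sum_congr rfl fun x hx => by rw [xn3 (Finset.mem_range.1 hx)]
  rw [s0, s1, s2, s3]
  have b0 := brick2 hn 0 (15 / 16) y (by norm_num) (by norm_num) le_rfl (by norm_num) p
  have b1 := brick2 hn 0 (15 / 16) (-y) (by norm_num) (by norm_num) le_rfl (by norm_num) (fun x => p (n + x))
  have b2 := brick2 hn (15 / 16) (33 / 16) y (by norm_num) (by norm_num) (by norm_num) (by norm_num)
    (fun x => p (n + n + x))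
  have b3 := brick2 hn (15 / 16) (33 / 16) (-y) (by norm_num) (by norm_num) (by norm_num) (by norm_num)
    (fun x => p (n + n + n + x))
  rw [abs_neg] at b1 b3
  set v := y / (n:ℝ) with hv
  have hv' : -y / (n:ℝ) = -v := by rw [hv]; ring
  rw [hv'] at b1 b3
  have p1 : Psi (0 + 15 / 16 - v) = -Psi (v - 15 / 16) := by rw [← negP]; congr 1; ring
  have p2 : Psi (0 - v) = -Psi v := by rw [← negP]; congr 1; ring
  have p3 : Psi (0 + 15 / 16 - -v) = Psi (v + 15 / 16) := by congr 1; ring
  have p4 : Psi (0 - -v) = Psi v := by congr 1; ring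
  have p5 : Psi (15 / 16 + 33 / 16 - v) = -Psi (v - 3) := by rw [← negP]; congr 1; ring
  have p6 : Psi (15 / 16 - v) = -Psi (v - 15 / 16) := by rw [← negP]; congr 1; ring
  have p7 : Psi (15 / 16 + 33 / 16 - -v) = Psi (v + 3) := by congr 1; ring
  have p8 : Psi (15 / 16 - -v) = Psi (v + 15 / 16) := by congr 1; ring
  rw [p1, p2] at b0
  rw [p3, p4] at b1
  rw [p5, p6] at b2
  rw [p7, p8] at b3
  have hU : (n:ℝ) * Ux v = n / (15 / 16) * (-Psi (v - 15 / 16) - -Psi v) +
      n / (15 / 16) * (Psi (v + 15 / 16) - Psi v) + n / (33 / 16) * (-Psi (v - 3) - -Psi (v - 15 / 16)) +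
      n / (33 / 16) * (Psi (v + 3) - Psi (v + 15 / 16)) := by
    unfold Ux; ring
  rw [hU]
  linarith

end Pot836

open Pot836 in
theorem G4_pot : S_pot := by
  refine ⟨80, by norm_num, ?_⟩
  intro n hn m hm1 hm2 i hi y
  have hn2 : (2:ℝ) ≤ n := by exact_mod_cast hn
  have hn0 : (0:ℝ) < n := by linarith
  have hW : (2:ℝ) ≤ n + |y| := by have := abs_nonneg y; linarith
  have hl2 : Real.log 2 ≤ Real.log (n + |y|) := Real.log_le_log (by norm_num) hW
  have hl2' := Real.log_two_gt_d9
  by_cases hz : ∃ j ∈ (Finset.range m).erase i, |y - xn n j| = 0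
  · obtain ⟨j, hj, h0⟩ := hz
    rw [Finset.prod_eq_zero hj h0]
    exact (Real.exp_pos _).le
  push_neg at hz
  have hpos : 0 < ∏ j ∈ (Finset.range m).erase i, |y - xn n j| :=
    Finset.prod_pos fun j hj => lt_of_le_of_ne (abs_nonneg _) (Ne.symm (hz j hj))
  rw [← Real.log_le_iff_le_exp hpos, Real.log_prod (fun j hj => hz j hj)]
  set S := (Finset.range m).erase i with hS
  have htot := total hn y (fun j => j ∈ S)
  -- the kept nodes below `4 n`
  have hsplit : ∑ j ∈ S, Real.log |y - xn n j| ≤
      ∑ j ∈ Finset.range (4 * n), (if j ∈ S then Real.log |y - xn n j| else 0) + Real.log (n + |y|) := by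
    have hsub : S ⊆ Finset.range (4 * n + 1) := by
      intro j hj
      rw [hS, Finset.mem_erase, Finset.mem_range] at hj
      rw [Finset.mem_range]; omega
    have h1 : ∑ j ∈ S, Real.log |y - xn n j| =
        ∑ j ∈ Finset.range (4 * n + 1), (if j ∈ S then Real.log |y - xn n j| else 0) := by
      rw [← Finset.sum_filter]
      congr 1
      ext j
      rw [Finset.mem_filter]
      exact ⟨fun h => ⟨hsub h, h⟩, fun h => h.2⟩
    rw [h1, Finset.sum_range_succ]
    have h2 : (if 4 * n ∈ S then Real.log |y - xn n (4 * n)| else 0) ≤ Real.log (n + |y|) := by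
      split_ifs with h4
      · rw [xn4, sub_zero]
        have h5 := hz _ h4
        rw [xn4, sub_zero] at h5
        have h6 : 0 < |y| := lt_of_le_of_ne (abs_nonneg _) (Ne.symm h5)
        exact Real.log_le_log h6 (by linarith)
      · linarith
    linarith
  have hdrop : ∑ j ∈ Finset.range (4 * n), (if j ∈ S then Real.log |y - xn n j| else 0) ≤
      ∑ j ∈ Finset.range (4 * n), (if j ∈ S then Real.log |y - xn n j| else -4) + 8 := by
    have h1 : ∑ j ∈ Finset.range (4 * n), (if j ∈ S then Real.log |y - xn n j| else 0) =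
        ∑ j ∈ Finset.range (4 * n), (if j ∈ S then Real.log |y - xn n j| else -4) +
          ∑ j ∈ Finset.range (4 * n), (if j ∈ S then (0:ℝ) else 4) := by
      rw [← Finset.sum_add_distrib]
      refine Finset.sum_congr rfl fun j _ => ?_
      split_ifs <;> norm_num
    have h2 : ∑ j ∈ Finset.range (4 * n), (if j ∈ S then (0:ℝ) else 4) ≤ 8 := by
      have h3 : ∑ j ∈ Finset.range (4 * n), (if j ∈ S then (0:ℝ) else 4) =
          ∑ j ∈ (Finset.range (4 * n)).filter (fun j => j ∉ S), (4:ℝ) := by
        rw [Finset.sum_filter]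
        refine Finset.sum_congr rfl fun j _ => ?_
        by_cases h : j ∈ S <;> simp [h]
      rw [h3, Finset.sum_const, nsmul_eq_mul]
      have h4 : (Finset.range (4 * n)).filter (fun j => j ∉ S) ⊆ {i, 4 * n - 1} := by
        intro j hj
        rw [Finset.mem_filter, Finset.mem_range, hS, Finset.mem_erase, Finset.mem_range] at hj
        rw [Finset.mem_insert, Finset.mem_singleton]
        by_contra hcon
        push_neg at hcon
        exact hj.2 ⟨hcon.1, by omega⟩
      have h5 : ((Finset.range (4 * n)).filter (fun j => j ∉ S)).card ≤ 2 :=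
        (Finset.card_le_card h4).trans (Finset.card_le_two)
      have h6 : (((Finset.range (4 * n)).filter (fun j => j ∉ S)).card : ℝ) ≤ 2 := by exact_mod_cast h5
      linarith
    linarith
  have hlog4 : Real.log (4 * (n + |y|)) = 2 * Real.log 2 + Real.log (n + |y|) := by
    rw [Real.log_mul (by norm_num) (by linarith)]
    have : (4:ℝ) = 2 ^ 2 := by norm_num
    rw [this, Real.log_pow]; push_cast; ring
  rw [hlog4] at htot
  nlinarith
end Pool.Agent.LPB
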